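import Mathlib.Analysis.Normed.Operator.Basic
import Mathlib.Analysis.SpecificLimits.Basic
import Mathlib.Topology.MetricSpace.Lipschitz
import Mathlib.Tactic.Positivity
import Mathlib.Tactic.Linarith
import Mathlib.Tactic.Module

/-! A Lipschitz curve of nearly best approximants of a point in the closure of the small space. -/

set_option autoImplicit false
open Filter Topology

namespace Pool.Agent.MP_37b4fc_an.Cp

variable {E0 E1 : Type*} [NormedAddCommGroup E0] [NormedSpace ℝ E0]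
  [NormedAddCommGroup E1] [NormedSpace ℝ E1]

theorem exists_near (ι : E1 →L[ℝ] E0) (a : E0) (ha : ∀ η : ℝ, 0 < η → ∃ y, ‖a - ι y‖ ≤ η)
    {ρ : ℝ} (hρ : 0 < ρ) :
    ∃ y, ‖a - ι y‖ ≤ ρ ∧ ∀ x, ‖a - ι x‖ ≤ ρ → ‖y‖ ≤ 2 * ‖x‖ := by
  by_cases h : ‖a‖ ≤ ρ
  · exact ⟨0, by simpa using h, fun x _ => by simp⟩
  rw [not_le] at h
  set S : Set ℝ := {s | ∃ x, ‖a - ι x‖ ≤ ρ ∧ ‖x‖ = s} with hS
  have hne : S.Nonempty := by
    obtain ⟨y, hy⟩ := ha ρ hρ
    exact ⟨_, y, hy, rfl⟩
  have hι : 0 < ‖ι‖ + 1 := by positivity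
  have hlow : ∀ s ∈ S, (‖a‖ - ρ) / (‖ι‖ + 1) ≤ s := by
    rintro s ⟨x, hx, rfl⟩
    rw [div_le_iff₀ hι]
    have h1 : ‖a‖ ≤ ‖a - ι x‖ + ‖ι x‖ := by
      calc ‖a‖ = ‖(a - ι x) + ι x‖ := by rw [sub_add_cancel]
        _ ≤ _ := norm_add_le _ _
    have h2 := ι.le_opNorm x
    have h3 := norm_nonneg x
    nlinarith
  have hpos : 0 < sInf S := lt_of_lt_of_le (div_pos (by linarith) hι) (le_csInf hne hlow)
  obtain ⟨s, ⟨y, hy, rfl⟩, hs⟩ := exists_lt_of_csInf_lt hne (show sInf S < 2 * sInf S by linarith)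
  refine ⟨y, hy, fun x hx => ?_⟩
  have : sInf S ≤ ‖x‖ := csInf_le ⟨_, hlow⟩ ⟨x, hx, rfl⟩
  linarith

/-- the radii -/
noncomputable def rad (R : ℝ) (j : ℕ) : ℝ := R * (1 / 2) ^ j

theorem rad_pos {R : ℝ} (hR : 0 < R) (j : ℕ) : 0 < rad R j := by unfold rad; positivity

theorem rad_succ (R : ℝ) (j : ℕ) : rad R (j + 1) = rad R j / 2 := by
  unfold rad; rw [pow_succ]; ring

theorem rad_anti {R : ℝ} (hR : 0 < R) {i j : ℕ} (h : i ≤ j) : rad R j ≤ rad R i := by
  unfold rad
  exact mul_le_mul_of_nonneg_left (pow_le_pow_of_le_one (by norm_num) (by norm_num) h) hR.le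

theorem exists_rad_lt {R r : ℝ} (hR : 0 < R) (hr : 0 < r) : ∃ n, rad R n < r := by
  obtain ⟨n, hn⟩ := exists_pow_lt_of_lt_one (div_pos hr hR) (show (1 / 2 : ℝ) < 1 by norm_num)
  refine ⟨n, ?_⟩
  unfold rad
  rw [lt_div_iff₀ hR] at hn
  linarith

/-- the ramp functions -/
noncomputable def psi (R : ℝ) (j : ℕ) (r : ℝ) : ℝ :=
  max (rad R j - r) 0 - max (rad R (j + 1) - r) 0

theorem psi_anti {R : ℝ} (hR : 0 < R) (j : ℕ) {r r' : ℝ} (h : r' ≤ r) : psi R j r ≤ psi R j r' := by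
  have h1 := rad_pos hR j
  unfold psi
  rw [rad_succ]
  simp only [max_def]
  split_ifs <;> linarith

theorem psi_sum {R : ℝ} (n : ℕ) {r r' : ℝ} (h : r' ≤ r) :
    ∑ j ∈ Finset.range n, (psi R j r' - psi R j r) ≤ r - r' := by
  have h1 : ∀ s, ∑ j ∈ Finset.range n, psi R j s = max (rad R 0 - s) 0 - max (rad R n - s) 0 :=
    fun s => Finset.sum_range_sub' (fun j => max (rad R j - s) 0) n
  rw [Finset.sum_sub_distrib, h1, h1]
  simp only [max_def]
  split_ifs <;> linarith

/-- the curve after `n` steps -/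
noncomputable def cur (R : ℝ) (y : ℕ → E1) (n : ℕ) (r : ℝ) : E1 :=
  ∑ j ∈ Finset.range n, psi R j r • ((2 / rad R j) • (y (j + 1) - y j))

theorem cur_succ (R : ℝ) (y : ℕ → E1) (n : ℕ) (r : ℝ) :
    cur R y (n + 1) r = cur R y n r + psi R n r • ((2 / rad R n) • (y (n + 1) - y n)) :=
  Finset.sum_range_succ _ _

theorem cur_lip {F : Type*} [NormedAddCommGroup F] [NormedSpace ℝ F] (T : E1 →L[ℝ] F) {R : ℝ}
    (hR : 0 < R) (y : ℕ → E1) (n : ℕ) {D : ℝ} (hD0 : 0 ≤ D)
    (hD : ∀ j, j < n → ‖T ((2 / rad R j) • (y (j + 1) - y j))‖ ≤ D) (r r' : ℝ) :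
    ‖T (cur R y n r') - T (cur R y n r)‖ ≤ D * |r' - r| := by
  wlog h : r' ≤ r generalizing r r'
  · rw [norm_sub_rev, abs_sub_comm]
    exact this r' r (le_of_not_ge h)
  rw [abs_sub_comm, abs_of_nonneg (sub_nonneg.mpr h)]
  have h1 : T (cur R y n r') - T (cur R y n r) = ∑ j ∈ Finset.range n,
      (psi R j r' - psi R j r) • T ((2 / rad R j) • (y (j + 1) - y j)) := by
    unfold cur
    rw [map_sum, map_sum, ← Finset.sum_sub_distrib]
    refine Finset.sum_congr rfl fun j _ => ?_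
    rw [map_smul T (psi R j r'), map_smul T (psi R j r), sub_smul]
  rw [h1]
  refine (norm_sum_le _ _).trans ?_
  refine le_trans ?_ (mul_le_mul_of_nonneg_left (psi_sum (R := R) n h) hD0)
  rw [Finset.mul_sum]
  refine Finset.sum_le_sum fun j hj => ?_
  have h2 : 0 ≤ psi R j r' - psi R j r := sub_nonneg.mpr (psi_anti hR j h)
  rw [norm_smul, Real.norm_of_nonneg h2, mul_comm]
  exact mul_le_mul_of_nonneg_right (hD j (Finset.mem_range.mp hj)) h2

theorem psi_of_ge {R : ℝ} (hR : 0 < R) {j : ℕ} {r : ℝ} (h : rad R j ≤ r) : psi R j r = 0 := by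
  have h1 := rad_pos hR j
  unfold psi
  rw [rad_succ, max_eq_right (by linarith), max_eq_right (by linarith), sub_zero]

theorem cur_stable {R : ℝ} (hR : 0 < R) (y : ℕ → E1) {n m : ℕ} {r : ℝ} (h : rad R n ≤ r)
    (hnm : n ≤ m) : cur R y m r = cur R y n r := by
  induction m, hnm using Nat.le_induction with
  | base => rfl
  | succ m hm ih => rw [cur_succ, psi_of_ge hR ((rad_anti hR hm).trans h), zero_smul, add_zero, ih]

theorem cur_low {R : ℝ} (hR : 0 < R) (y : ℕ → E1) (hy0 : y 0 = 0) (n : ℕ) {r : ℝ}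
    (h : r ≤ rad R n) : cur R y n r = y n := by
  induction n with
  | zero => simp [cur, hy0]
  | succ n ih =>
    have h1 := rad_pos hR n
    have h2 := rad_succ R n
    have h3 : psi R n r = rad R n / 2 := by
      unfold psi
      rw [max_eq_left (by linarith), max_eq_left (by linarith)]
      linarith
    rw [cur_succ, ih (by linarith), h3, smul_smul,
      show rad R n / 2 * (2 / rad R n) = 1 by field_simp, one_smul, add_sub_cancel]

theorem cur_norm {R : ℝ} (hR : 0 < R) (y : ℕ → E1) (hy0 : y 0 = 0) {r B : ℝ} (hB : 0 ≤ B)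
    (hy : ∀ j, r ≤ rad R j → ‖y (j + 1)‖ ≤ B) (n : ℕ) : ‖cur R y n r‖ ≤ B := by
  induction n with
  | zero => simpa [cur] using hB
  | succ n ih =>
    rcases le_total (rad R n) r with h | h
    · rw [cur_stable hR y h (Nat.le_succ n)]
      exact ih
    · have h1 := rad_pos hR n
      have h2 := rad_succ R n
      rw [cur_low hR y hy0 n h] at ih
      rw [cur_succ, cur_low hR y hy0 n h, smul_smul]
      set φ := psi R n r * (2 / rad R n) with hφ
      have h3 : 0 ≤ psi R n r := by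
        rw [← psi_of_ge hR (le_refl (rad R n))]
        exact psi_anti hR n h
      have h4 : psi R n r ≤ rad R n / 2 := by
        unfold psi
        simp only [max_def]
        split_ifs <;> linarith
      have h5 : 0 ≤ φ := by positivity
      have h6 : φ ≤ 1 := by
        rw [hφ, ← mul_div_assoc, div_le_one h1]
        linarith
      have h7 : y n + φ • (y (n + 1) - y n) = (1 - φ) • y n + φ • y (n + 1) := by module
      rw [h7]
      refine (norm_add_le _ _).trans ?_
      rw [norm_smul, norm_smul, Real.norm_of_nonneg h5, Real.norm_of_nonneg (by linarith)]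
      have h8 := mul_le_mul_of_nonneg_left ih (show 0 ≤ 1 - φ by linarith)
      have h9 := mul_le_mul_of_nonneg_left (hy n h) h5
      linarith

/-- A point `a` of the closure of the small space, outside the small space, is the only point that
a suitable map with (H) does not send into the small space. -/
theorem exists_map (ι : E1 →L[ℝ] E0) (a : E0) (ha : ∀ η : ℝ, 0 < η → ∃ y, ‖a - ι y‖ ≤ η)
    (hn : ∀ y, ι y ≠ a) :
    ∃ (U : E0 → E0) (V : E1 → E1), (∀ x x', ‖U x - U x'‖ ≤ 6 * ‖x - x'‖) ∧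
      (∀ y, U (ι y) = ι (V y)) ∧ (∀ y, ‖V y‖ ≤ 2 * ‖y‖) ∧ LocallyLipschitz V ∧ U a = a ∧
      ∀ x, x ≠ a → ∃ w, U x = ι w := by
  classical
  have ha0 : a ≠ 0 := fun h => hn 0 (by rw [map_zero, h])
  have hR : 0 < ‖a‖ := norm_pos_iff.mpr ha0
  set R := ‖a‖ with hRdef
  choose z hz1 hz2 using fun j : ℕ => exists_near ι a ha (rad_pos hR j)
  let y : ℕ → E1 := fun j => Nat.casesOn j 0 z
  have hy0 : y 0 = 0 := rfl
  have hys : ∀ j, y (j + 1) = z j := fun _ => rfl
  have hy1 : ∀ j, ‖a - ι (y j)‖ ≤ 2 * rad R j := by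
    intro j
    cases j with
    | zero => simp only [hy0, map_zero, sub_zero, rad, pow_zero, mul_one]; linarith
    | succ j => rw [hys, rad_succ]; linarith [hz1 j]
  have hD : ∀ j, ‖ι ((2 / rad R j) • (y (j + 1) - y j))‖ ≤ 6 := by
    intro j
    have h1 := rad_pos hR j
    have h2 : ι (y (j + 1) - y j) = (a - ι (y j)) - (a - ι (z j)) := by rw [map_sub, hys]; abel
    rw [map_smul, norm_smul, Real.norm_of_nonneg (by positivity), h2, div_mul_eq_mul_div,
      div_le_iff₀ h1]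
    linarith [norm_sub_le (a - ι (y j)) (a - ι (z j)), hy1 j, hz1 j]
  have hN : ∀ r : ℝ, ∃ n : ℕ, 0 < r → rad R n ≤ r := by
    intro r
    by_cases hr : 0 < r
    · obtain ⟨n, hn⟩ := exists_rad_lt hR hr
      exact ⟨n, fun _ => hn.le⟩
    · exact ⟨0, fun h => absurd h hr⟩
  choose N hN using hN
  let w : ℝ → E1 := fun r => cur R y (N r) r
  have hw : ∀ r n, rad R n ≤ r → w r = cur R y n r := by
    intro r n h
    have h1 := hN r ((rad_pos hR n).trans_le h)
    rcases le_total n (N r) with h2 | h2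
    · exact cur_stable hR y h h2
    · exact (cur_stable hR y h1 h2).symm
  have hpos : ∀ x, x ≠ a → 0 < ‖x - a‖ := fun x hx => norm_pos_iff.mpr (sub_ne_zero.mpr hx)
  have hwa : ∀ r, 0 < r → ‖ι (w r) - a‖ ≤ 6 * r := by
    intro r hr
    have h1 := hN r hr
    have h2 := cur_lip ι hR y (N r) (by norm_num) (fun j _ => hD j) (rad R (N r)) r
    rw [cur_low hR y hy0 _ le_rfl, abs_of_nonneg (sub_nonneg.mpr h1)] at h2
    have h3 : ι (w r) - a = (ι (cur R y (N r) r) - ι (y (N r))) - (a - ι (y (N r))) := by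
      simp only [w]; abel
    rw [h3]
    linarith [norm_sub_le (ι (cur R y (N r) r) - ι (y (N r))) (a - ι (y (N r))), hy1 (N r),
      rad_pos hR (N r)]
  refine ⟨fun x => if x = a then a else ι (w ‖x - a‖), fun v => w ‖ι v - a‖, ?_, ?_, ?_, ?_, ?_, ?_⟩
  · intro x x'
    by_cases hx : x = a <;> by_cases hx' : x' = a
    · simp [hx, hx']
    · simp only [hx, hx', if_true, if_false]
      rw [norm_sub_rev, norm_sub_rev a x']
      exact hwa _ (hpos x' hx')
    · simp only [hx, hx', if_true, if_false]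
      exact hwa _ (hpos x hx)
    · simp only [hx, hx', if_false]
      obtain ⟨n, hn⟩ := exists_rad_lt hR (lt_min (hpos x hx) (hpos x' hx'))
      rw [hw _ n (hn.le.trans (min_le_left _ _)), hw _ n (hn.le.trans (min_le_right _ _))]
      refine (cur_lip ι hR y n (by norm_num) (fun j _ => hD j) _ _).trans ?_
      have := abs_norm_sub_norm_le (x - a) (x' - a)
      rw [sub_sub_sub_cancel_right] at this
      linarith
  · intro v
    simp only [hn v, if_false]
  · intro v
    refine cur_norm hR y hy0 (by positivity) (fun j hj => ?_) _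
    rw [hys]
    exact hz2 j v (by rw [norm_sub_rev]; exact hj)
  · intro v
    obtain ⟨n, hn⟩ := exists_rad_lt hR (hpos _ (hn v))
    set D := ∑ j ∈ Finset.range n, ‖(2 / rad R j) • (y (j + 1) - y j)‖ with hDdef
    have hD0 : 0 ≤ D := Finset.sum_nonneg fun _ _ => norm_nonneg _
    have hc : Continuous fun v' : E1 => ‖ι v' - a‖ := by fun_prop
    refine ⟨⟨D * ‖ι‖, by positivity⟩, {v' | rad R n < ‖ι v' - a‖},
      (isOpen_lt continuous_const hc).mem_nhds hn, LipschitzOnWith.of_dist_le_mul ?_⟩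
    intro v1 h1 v2 h2
    rw [dist_eq_norm, dist_eq_norm, hw _ n (le_of_lt h1), hw _ n (le_of_lt h2)]
    have h3 := cur_lip (ContinuousLinearMap.id ℝ E1) hR y n hD0 (fun j hj =>
      Finset.single_le_sum (f := fun j => ‖(2 / rad R j) • (y (j + 1) - y j)‖)
        (fun _ _ => norm_nonneg _) (Finset.mem_range.mpr hj)) ‖ι v2 - a‖ ‖ι v1 - a‖
    have h4 := abs_norm_sub_norm_le (ι v1 - a) (ι v2 - a)
    rw [sub_sub_sub_cancel_right, ← map_sub] at h4
    refine h3.trans ?_
    show _ ≤ D * ‖ι‖ * _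
    rw [mul_assoc]
    exact mul_le_mul_of_nonneg_left (h4.trans (ι.le_opNorm _)) hD0
  · simp
  · intro x hx
    exact ⟨w ‖x - a‖, by simp only [hx, if_false]⟩

end Pool.Agent.MP_37b4fc_an.Cp
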