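import Mathlib.Topology.MetricSpace.Lipschitz
import Pool.Agent.MP_37b4fc_an.Defs

set_option autoImplicit false
open scoped ENNReal

namespace Pool.Agent.MP_37b4fc_an

/-- Every map `U : A0 → B0` with (H), whose restriction `V : A1 → B1` has the property `R`, is
continuous from the `(θ,∞)` K-method space of the couple `ιA` to that of the couple `ιB`. -/
def AllContinuous {A0 A1 B0 B1 : Type*} [NormedAddCommGroup A0] [NormedAddCommGroup A1]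
    [NormedAddCommGroup B0] [NormedAddCommGroup B1] (ιA : A1 → A0) (ιB : B1 → B0) (θ : ℝ)
    (R : (A1 → B1) → Prop) : Prop :=
  ∀ (U : A0 → B0) (V : A1 → B1) (M0 M1 : ℝ),
    (∀ a b : A0, ‖U a - U b‖ ≤ M0 * ‖a - b‖) →
    (∀ x : A1, U (ιA x) = ιB (V x)) →
    (∀ x : A1, ‖V x‖ ≤ M1 * ‖x‖) →
    R V →
    ∀ a : A0, Knorm ιA θ ∞ a < ∞ →
      ∀ ε : ℝ≥0∞, 0 < ε → ∃ δ : ℝ≥0∞, 0 < δ ∧ ∀ b : A0, Knorm ιA θ ∞ b < ∞ →
        Knorm ιA θ ∞ (b - a) < δ → Knorm ιB θ ∞ (U b - U a) < ε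

end Pool.Agent.MP_37b4fc_an
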