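import Mathlib.Analysis.Normed.Operator.Banach
import Mathlib.Analysis.SpecificLimits.Normed
import Pool.Agent.MP_37b4fc_an.Positive

/-! If the small space is not closed in the large one, some point of the `(θ,∞)` space keeps
`t^(-θ) K(t,a)` away from zero along a sequence `t → 0`. -/

set_option autoImplicit false
set_option linter.unusedSectionVars false
open Filter Topology

namespace Pool.Agent.MP_37b4fc_an.Cp

variable {E0 E1 : Type*} [NormedAddCommGroup E0] [NormedSpace ℝ E0]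
  [NormedAddCommGroup E1] [NormedSpace ℝ E1]

theorem Kf_approx (ι : E1 → E0) (t : ℝ) (a : E0) {c : ℝ} (h : Kf ι t a < c) :
    ∃ y, ‖a - ι y‖ + t * ‖y‖ < c :=
  exists_lt_of_ciInf_lt h

theorem Kf_le_norm (ι : E1 →L[ℝ] E0) {t : ℝ} (ht : 0 ≤ t) (a : E0) : Kf ι t a ≤ ‖a‖ := by
  simpa using Kf_le ι ht a 0

theorem Kf_smul_le (ι : E1 →L[ℝ] E0) {t c : ℝ} (ht : 0 ≤ t) (hc : 0 < c) (a : E0) :
    Kf ι t (c • a) ≤ c * Kf ι t a := by
  refine le_mul_Kf _ _ _ hc fun y => (Kf_le ι ht (c • a) (c • y)).trans (le_of_eq ?_)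
  rw [map_smul, ← smul_sub, norm_smul, norm_smul, Real.norm_of_nonneg hc.le]
  ring

theorem Kf_neg_le (ι : E1 →L[ℝ] E0) {t : ℝ} (ht : 0 ≤ t) (a : E0) : Kf ι t a ≤ Kf ι t (-a) := by
  refine le_Kf _ _ _ fun y => (Kf_le ι ht a (-y)).trans (le_of_eq ?_)
  rw [map_neg, norm_neg, ← norm_neg (a - -ι y)]
  congr 2
  abel

theorem Kf_split (ι : E1 →L[ℝ] E0) {t : ℝ} (ht : 0 ≤ t) (a b : E0) (z : E1) :
    Kf ι t a ≤ Kf ι t b + ‖a - b - ι z‖ + t * ‖z‖ := by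
  rw [add_assoc, ← sub_le_iff_le_add]
  refine le_Kf _ _ _ fun y => ?_
  have h1 := Kf_le ι ht a (y + z)
  have h2 : a - ι (y + z) = (b - ι y) + (a - b - ι z) := by rw [map_add]; abel
  rw [h2] at h1
  have h3 := norm_add_le (b - ι y) (a - b - ι z)
  have h4 := mul_le_mul_of_nonneg_left (norm_add_le y z) ht
  linarith

theorem Kf_range_le (ι : E1 →L[ℝ] E0) {θ : ℝ} (h0 : 0 < θ) (h1 : θ < 1) (y : E1) {s : ℝ}
    (hs : 0 < s) : Kf ι s (ι y) ≤ (‖ι y‖ + ‖y‖) * s ^ θ := by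
  have hp : 0 < s ^ θ := Real.rpow_pos_of_pos hs _
  rcases le_total s 1 with h | h
  · have h2 : s ≤ s ^ θ := by
      simpa using Real.rpow_le_rpow_of_exponent_ge hs h h1.le
    have h3 := Kf_le ι hs.le (ι y) y
    rw [sub_self, norm_zero, zero_add] at h3
    nlinarith [norm_nonneg y, norm_nonneg (ι y)]
  · have h2 : 1 ≤ s ^ θ := Real.one_le_rpow h h0.le
    have h3 := Kf_le_norm ι hs.le (ι y)
    nlinarith [norm_nonneg y, norm_nonneg (ι y)]

/-- successive approximation -/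
theorem closed_of_approx [CompleteSpace E0] [CompleteSpace E1] (ι : E1 →L[ℝ] E0)
    (hι : Function.Injective ι) {C : ℝ} (hC : 0 ≤ C)
    (h : ∀ y, ∃ z, ‖ι y - ι z‖ ≤ ‖ι y‖ / 2 ∧ ‖z‖ ≤ C * ‖ι y‖) : IsClosed (Set.range ι) := by
  choose g hg1 hg2 using h
  have key : ∀ y, ‖y‖ ≤ 2 * C * ‖ι y‖ := by
    intro y
    let v : ℕ → E1 := fun n => (fun x => x - g x)^[n] y
    have hv : ∀ n, v (n + 1) = v n - g (v n) := fun n => Function.iterate_succ_apply' _ _ _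
    have hv1 : ∀ n, ‖ι (v n)‖ ≤ ‖ι y‖ * (1 / 2) ^ n := by
      intro n
      induction n with
      | zero => simp [v]
      | succ n ih =>
        rw [hv, map_sub, pow_succ]
        linarith [hg1 (v n)]
    have hv2 : ∀ n, dist (v n) (v (n + 1)) ≤ C * ‖ι y‖ * (1 / 2) ^ n := by
      intro n
      rw [dist_eq_norm, hv, sub_sub_cancel, mul_assoc]
      exact (hg2 _).trans (mul_le_mul_of_nonneg_left (hv1 n) hC)
    obtain ⟨l, hl⟩ := cauchySeq_tendsto_of_complete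
      (cauchySeq_of_le_geometric (1 / 2) _ (by norm_num) hv2)
    have h3 : Tendsto (fun n => ι (v n)) atTop (𝓝 0) := by
      refine squeeze_zero_norm hv1 ?_
      simpa using (tendsto_pow_atTop_nhds_zero_of_lt_one (r := (1 / 2 : ℝ)) (by norm_num)
        (by norm_num)).const_mul ‖ι y‖
    have h4 : l = 0 := hι (by
      rw [map_zero]
      exact tendsto_nhds_unique ((ι.continuous.tendsto l).comp hl) h3)
    have h5 := dist_le_of_le_geometric_of_tendsto₀ (1 / 2) _ (by norm_num) hv2 hl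
    rw [h4, dist_zero_right] at h5
    have h6 : v 0 = y := rfl
    rw [h6, show (1 - 1 / 2 : ℝ) = 1 / 2 by norm_num] at h5
    linarith
  have h1 : AntilipschitzWith ⟨2 * C, by positivity⟩ ι :=
    AddMonoidHomClass.antilipschitz_of_bound ι key
  exact h1.isClosed_range ι.uniformContinuous

theorem exists_peak [CompleteSpace E0] [CompleteSpace E1] (ι : E1 →L[ℝ] E0)
    (hι : Function.Injective ι) (hc : ¬ IsClosed (Set.range ι)) {θ : ℝ} (h0 : 0 < θ) (h1 : θ < 1)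
    {τ : ℝ} (hτ : 0 < τ) :
    ∃ (a : E0) (t : ℝ), 0 < t ∧ t < τ ∧ (∀ s, 0 < s → Kf ι s a ≤ s ^ θ) ∧ t ^ θ / 2 ≤ Kf ι t a := by
  by_contra hcon
  push Not at hcon
  apply hc
  have hτθ : 0 < τ ^ θ := Real.rpow_pos_of_pos hτ _
  have step : ∀ (a : E0) (N : ℝ), 0 < N → (∀ s, 0 < s → Kf ι s a ≤ N * s ^ θ) →
      ∀ s, 0 < s → Kf ι s a ≤ (N / 2 + ‖a‖ / τ ^ θ) * s ^ θ := by
    intro a N hN ha s hs
    have hp : 0 < s ^ θ := Real.rpow_pos_of_pos hs _
    have hq : 0 ≤ ‖a‖ / τ ^ θ := by positivity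
    rcases lt_or_ge s τ with h | h
    · have h2 := hcon (N⁻¹ • a) s hs h (fun s' hs' => by
        refine (Kf_smul_le ι hs'.le (inv_pos.mpr hN) a).trans ?_
        rw [inv_mul_le_iff₀ hN]
        exact ha s' hs')
      have h3 := Kf_smul_le ι hs.le hN (N⁻¹ • a)
      rw [smul_smul, mul_inv_cancel₀ hN.ne', one_smul] at h3
      nlinarith
    · have h2 : τ ^ θ ≤ s ^ θ := Real.rpow_le_rpow hτ.le h h0.le
      have h3 := Kf_le_norm ι hs.le a
      have h4 : ‖a‖ = ‖a‖ / τ ^ θ * τ ^ θ := by field_simp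
      nlinarith
  have bound : ∀ (y : E1) (s : ℝ), 0 < s → Kf ι s (ι y) ≤ 2 * (‖ι y‖ / τ ^ θ) * s ^ θ := by
    intro y s hs
    set D := ‖ι y‖ / τ ^ θ with hD
    have hD0 : 0 ≤ D := by positivity
    set N := ‖ι y‖ + ‖y‖ + 1 with hN
    have hN0 : 0 < N := by positivity
    have h2 : ∀ n : ℕ, ∀ s, 0 < s → Kf ι s (ι y) ≤ (N * (1 / 2) ^ n + 2 * D) * s ^ θ := by
      intro n
      induction n with
      | zero =>
        intro s hs
        have hp : 0 < s ^ θ := Real.rpow_pos_of_pos hs _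
        have := Kf_range_le ι h0 h1 y hs
        nlinarith
      | succ n ih =>
        intro s hs
        refine (step (ι y) _ (by positivity) ih s hs).trans (le_of_eq ?_)
        rw [pow_succ]
        ring
    have h3 : Tendsto (fun n : ℕ => (N * (1 / 2) ^ n + 2 * D) * s ^ θ) atTop
        (𝓝 ((N * 0 + 2 * D) * s ^ θ)) :=
      (((tendsto_pow_atTop_nhds_zero_of_lt_one (r := (1 / 2 : ℝ)) (by norm_num)
        (by norm_num)).const_mul N).add_const _).mul_const _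
    have h4 := ge_of_tendsto' h3 (fun n => h2 n s hs)
    simpa using h4
  obtain ⟨s, hs, hs'⟩ : ∃ s : ℝ, 0 < s ∧ s ^ θ = τ ^ θ / 8 :=
    ⟨(τ ^ θ / 8) ^ θ⁻¹, Real.rpow_pos_of_pos (by positivity) _,
      Real.rpow_inv_rpow (by positivity) h0.ne'⟩
  refine closed_of_approx ι hι (C := s⁻¹) (by positivity) fun y => ?_
  rcases (norm_nonneg (ι y)).eq_or_lt with h | h
  · exact ⟨0, by rw [map_zero, sub_zero, ← h]; norm_num, by rw [norm_zero, ← h]; simp⟩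
  have h2 := bound y s hs
  rw [hs', show 2 * (‖ι y‖ / τ ^ θ) * (τ ^ θ / 8) = ‖ι y‖ / 4 by field_simp; norm_num] at h2
  obtain ⟨z, hz⟩ := Kf_approx ι s (ι y) (c := ‖ι y‖ / 2) (by linarith)
  have h3 : 0 ≤ s * ‖z‖ := by positivity
  refine ⟨z, by linarith, ?_⟩
  rw [le_inv_mul_iff₀ hs]
  linarith [norm_nonneg (ι y - ι z)]

theorem exists_small {θ : ℝ} (h0 : 0 < θ) (h1 : θ < 1) {κ : ℝ} (hκ : 0 < κ) :
    ∃ q : ℝ, 0 < q ∧ q ≤ 1 / 2 ∧ q ^ θ ≤ κ ∧ q ≤ κ * q ^ θ := by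
  have h2 : 0 < 1 - θ := by linarith
  have ha : 0 < κ ^ θ⁻¹ := Real.rpow_pos_of_pos hκ _
  have hb : 0 < κ ^ (1 - θ)⁻¹ := Real.rpow_pos_of_pos hκ _
  set q := min (1 / 2) (min (κ ^ θ⁻¹) (κ ^ (1 - θ)⁻¹)) with hq
  have hq0 : 0 < q := lt_min (by norm_num) (lt_min ha hb)
  refine ⟨q, hq0, min_le_left _ _, ?_, ?_⟩
  · rw [← Real.rpow_inv_rpow hκ.le h0.ne']
    exact Real.rpow_le_rpow hq0.le ((min_le_right _ _).trans (min_le_left _ _)) h0.le
  · have h3 : q ^ (1 - θ) ≤ κ := by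
      rw [← Real.rpow_inv_rpow hκ.le h2.ne']
      exact Real.rpow_le_rpow hq0.le ((min_le_right _ _).trans (min_le_right _ _)) h2.le
    have h4 : q = q ^ (1 - θ) * q ^ θ := by rw [← Real.rpow_add hq0]; simp
    calc q = q ^ (1 - θ) * q ^ θ := h4
      _ ≤ κ * q ^ θ := mul_le_mul_of_nonneg_right h3 (Real.rpow_pos_of_pos hq0 _).le

theorem exists_block [CompleteSpace E0] [CompleteSpace E1] (ι : E1 →L[ℝ] E0)
    (hι : Function.Injective ι) (hc : ¬ IsClosed (Set.range ι)) {θ : ℝ} (h0 : 0 < θ) (h1 : θ < 1) :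
    ∃ C : ℝ, 0 < C ∧ ∀ τ : ℝ, 0 < τ → ∃ (u : E1) (t : ℝ), 0 < t ∧ t < τ ∧ ‖ι u‖ ≤ C * t ^ θ ∧
      t * ‖u‖ ≤ C * t ^ θ ∧ t ^ θ / 4 ≤ Kf ι t (ι u) := by
  obtain ⟨q, hq0, hq1, hq2, hq3⟩ := exists_small h0 h1 (κ := 1 / 16) (by norm_num)
  have hqθ : 0 < q ^ θ := Real.rpow_pos_of_pos hq0 _
  refine ⟨1 + 2 / q ^ θ + 1 / q, by positivity, fun τ hτ => ?_⟩
  obtain ⟨a, t, ht, htτ, ha, hK⟩ := exists_peak ι hι hc h0 h1 hτ
  have hp : 0 < t ^ θ := Real.rpow_pos_of_pos ht _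
  have e1 : (q * t) ^ θ = q ^ θ * t ^ θ := Real.mul_rpow hq0.le ht.le
  have e2 : (t / q) ^ θ = t ^ θ / q ^ θ := Real.div_rpow ht.le hq0.le _
  obtain ⟨z1, hz1⟩ := Kf_approx ι (q * t) a (c := 2 * (q ^ θ * t ^ θ)) (by
    have := ha (q * t) (by positivity)
    rw [e1] at this
    have : 0 < q ^ θ * t ^ θ := by positivity
    linarith)
  obtain ⟨z2, hz2⟩ := Kf_approx ι (t / q) a (c := 2 * (t ^ θ / q ^ θ)) (by
    have := ha (t / q) (by positivity)
    rw [e2] at this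
    have : 0 < t ^ θ / q ^ θ := by positivity
    linarith)
  have b1 : 0 ≤ q * t * ‖z1‖ := by positivity
  have b2 : 0 ≤ t / q * ‖z2‖ := by positivity
  have b3 : q ^ θ * t ^ θ ≤ t ^ θ / 16 := by nlinarith
  have c1 : ‖a - ι z1‖ ≤ t ^ θ / 8 := by linarith
  have c2 : t * ‖z1‖ ≤ 1 / q * t ^ θ := by
    rw [one_div, le_inv_mul_iff₀ hq0]
    linarith [norm_nonneg (a - ι z1)]
  have c3 : ‖a - ι z2‖ ≤ 2 / q ^ θ * t ^ θ := by
    have : 2 / q ^ θ * t ^ θ = 2 * (t ^ θ / q ^ θ) := by ring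
    linarith
  have c4 : t * ‖z2‖ ≤ t ^ θ / 8 := by
    have d1 : t / q * ‖z2‖ ≤ 2 * (t ^ θ / q ^ θ) := by linarith [norm_nonneg (a - ι z2)]
    have d2 : t * ‖z2‖ = q * (t / q * ‖z2‖) := by field_simp
    have d3 : q / q ^ θ ≤ 1 / 16 := by rw [div_le_iff₀ hqθ]; exact hq3
    have d4 : q * (2 * (t ^ θ / q ^ θ)) = 2 * (q / q ^ θ) * t ^ θ := by ring
    have d5 := mul_le_mul_of_nonneg_left d1 hq0.le
    nlinarith
  have p1 : 0 ≤ 2 / q ^ θ * t ^ θ := by positivity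
  have p2 : 0 ≤ 1 / q * t ^ θ := by positivity
  refine ⟨z1 - z2, t, ht, htτ, ?_, ?_, ?_⟩
  · have : ι (z1 - z2) = (a - ι z2) - (a - ι z1) := by rw [map_sub]; abel
    rw [this]
    linarith [norm_sub_le (a - ι z2) (a - ι z1)]
  · have := mul_le_mul_of_nonneg_left (norm_sub_le z1 z2) ht.le
    linarith
  · have h2 := Kf_split ι ht.le a (ι (z1 - z2)) z2
    have h3 : a - ι (z1 - z2) - ι z2 = a - ι z1 := by rw [map_sub]; abel
    rw [h3] at h2
    linarith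

theorem exists_bad [CompleteSpace E0] [CompleteSpace E1] (ι : E1 →L[ℝ] E0)
    (hι : Function.Injective ι) (hc : ¬ IsClosed (Set.range ι)) {θ : ℝ} (h0 : 0 < θ) (h1 : θ < 1) :
    ∃ (a : E0) (C : ℝ), (∀ s, 0 < s → Kf ι s a ≤ C * s ^ θ) ∧
      ∀ τ : ℝ, 0 < τ → ∃ t, 0 < t ∧ t < τ ∧ 1 / 8 * t ^ θ ≤ Kf ι t a := by
  obtain ⟨C, hC, hb⟩ := exists_block ι hι hc h0 h1
  set κ : ℝ := min (1 / 2) (1 / (32 * C)) with hκ
  have hκ0 : 0 < κ := lt_min (by norm_num) (by positivity)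
  have hκ1 : κ ≤ 1 / 2 := min_le_left _ _
  have hκ2 : 32 * C * κ ≤ 1 := by
    have : κ ≤ 1 / (32 * C) := min_le_right _ _
    rwa [le_div_iff₀ (by positivity), mul_comm] at this
  obtain ⟨q, hq0, hq1, hq2, hq3⟩ := exists_small h0 h1 hκ0
  choose f g hg0 hg1 hf1 hf2 hf3 using hb
  let T : ℕ → {τ : ℝ // 0 < τ} := fun n =>
    Nat.rec ⟨1, one_pos⟩ (fun _ τ => ⟨q * g τ.1 τ.2, mul_pos hq0 (hg0 _ _)⟩) n
  let t : ℕ → ℝ := fun n => g (T n).1 (T n).2
  let u : ℕ → E1 := fun n => f (T n).1 (T n).2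
  have ht0 : ∀ n, 0 < t n := fun n => hg0 _ _
  have ht1 : ∀ n, t (n + 1) ≤ q * t n := fun n => (hg1 (T (n + 1)).1 (T (n + 1)).2).le
  have hu1 : ∀ n, ‖ι (u n)‖ ≤ C * t n ^ θ := fun n => hf1 _ _
  have hu2 : ∀ n, t n * ‖u n‖ ≤ C * t n ^ θ := fun n => hf2 _ _
  have hu3 : ∀ n, t n ^ θ / 4 ≤ Kf ι (t n) (ι (u n)) := fun n => hf3 _ _
  clear_value t u
  clear T hg0 hg1 hf1 hf2 hf3 f g
  have hx0 : ∀ n, 0 < t n ^ θ := fun n => Real.rpow_pos_of_pos (ht0 n) _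
  have hx1 : ∀ n, t (n + 1) ^ θ ≤ κ * t n ^ θ := by
    intro n
    calc t (n + 1) ^ θ ≤ (q * t n) ^ θ := Real.rpow_le_rpow (ht0 _).le (ht1 n) h0.le
      _ = q ^ θ * t n ^ θ := Real.mul_rpow hq0.le (ht0 n).le
      _ ≤ _ := mul_le_mul_of_nonneg_right hq2 (hx0 n).le
  have hconc : ∀ s s' : ℝ, 0 < s → s ≤ s' → s * s' ^ θ ≤ s' * s ^ θ := by
    intro s s' hs hss
    have hs' : 0 < s' := hs.trans_le hss
    have e : ∀ r : ℝ, 0 < r → r = r ^ (1 - θ) * r ^ θ := fun r hr => by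
      rw [← Real.rpow_add hr]; simp
    have h2 : s ^ (1 - θ) ≤ s' ^ (1 - θ) := Real.rpow_le_rpow hs.le hss (by linarith)
    have h3 : 0 < s ^ θ * s' ^ θ :=
      mul_pos (Real.rpow_pos_of_pos hs _) (Real.rpow_pos_of_pos hs' _)
    calc s * s' ^ θ = s ^ (1 - θ) * (s ^ θ * s' ^ θ) := by rw [← mul_assoc, ← e s hs]
      _ ≤ s' ^ (1 - θ) * (s ^ θ * s' ^ θ) := mul_le_mul_of_nonneg_right h2 h3.le
      _ = s' * s ^ θ := by rw [mul_comm (s ^ θ), ← mul_assoc, ← e s' hs']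
  have hy1 : ∀ n, t (n + 1) * t n ^ θ ≤ κ * (t n * t (n + 1) ^ θ) := by
    intro n
    have h2 := hconc _ _ (ht0 (n + 1)) (ht1 n)
    rw [Real.mul_rpow hq0.le (ht0 n).le] at h2
    have hqθ : 0 < q ^ θ := Real.rpow_pos_of_pos hq0 _
    have h3 := mul_le_mul_of_nonneg_right hq3 (mul_pos (ht0 n) (hx0 (n + 1))).le
    refine le_of_mul_le_mul_left ?_ hqθ
    nlinarith
  let s : ℕ → E1 := fun n => ∑ i ∈ Finset.range n, u i
  have hs : ∀ n, s (n + 1) = s n + u n := fun n => Finset.sum_range_succ _ _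
  have hs1 : ∀ n, t n * ‖s n‖ ≤ 2 * C * κ * t n ^ θ ∧ t n * ‖s (n + 1)‖ ≤ 2 * C * t n ^ θ := by
    have h2 : ∀ n, t n * ‖s n‖ ≤ 2 * C * κ * t n ^ θ → t n * ‖s (n + 1)‖ ≤ 2 * C * t n ^ θ := by
      intro n h
      have h3 := mul_le_mul_of_nonneg_left (norm_add_le (s n) (u n)) (ht0 n).le
      have h4 := mul_le_mul_of_nonneg_left hκ1 (mul_pos hC (hx0 n)).le
      rw [hs]
      nlinarith [hu2 n]
    intro n
    induction n with
    | zero =>
      have h3 : t 0 * ‖s 0‖ ≤ 2 * C * κ * t 0 ^ θ := by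
        have := hx0 0
        simp only [s, Finset.range_zero, Finset.sum_empty, norm_zero, mul_zero]
        positivity
      exact ⟨h3, h2 0 h3⟩
    | succ n ih =>
      have h3 : t (n + 1) * ‖s (n + 1)‖ ≤ 2 * C * κ * t (n + 1) ^ θ := by
        refine le_of_mul_le_mul_left ?_ (ht0 n)
        have h4 := mul_le_mul_of_nonneg_left ih.2 (ht0 (n + 1)).le
        have h5 := mul_le_mul_of_nonneg_left (hy1 n) (show 0 ≤ 2 * C by positivity)
        nlinarith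
      exact ⟨h3, h2 _ h3⟩
  have hd : ∀ n m, n ≤ m → ‖ι (s m) - ι (s n)‖ ≤ 2 * C * (t n ^ θ - t m ^ θ) := by
    intro n m hnm
    induction m, hnm using Nat.le_induction with
    | base => simp
    | succ m hm ih =>
      have h2 : ι (s (m + 1)) - ι (s n) = (ι (s m) - ι (s n)) + ι (u m) := by
        rw [hs, map_add]; abel
      have h3 := mul_le_mul_of_nonneg_left ((hx1 m).trans
        (mul_le_mul_of_nonneg_right hκ1 (hx0 m).le)) hC.le
      rw [h2]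
      nlinarith [norm_add_le (ι (s m) - ι (s n)) (ι (u m)), hu1 m]
  have hd' : ∀ n m, n ≤ m → ‖ι (s m) - ι (s n)‖ ≤ 2 * C * t n ^ θ := by
    intro n m hnm
    nlinarith [hd n m hnm, mul_pos hC (hx0 m)]
  have hgeo : ∀ (x : ℕ → ℝ), (∀ n, 0 < x n) → (∀ n, x (n + 1) ≤ 1 / 2 * x n) →
      Tendsto x atTop (𝓝 0) := by
    intro x hx hx'
    have h2 : ∀ n, x n ≤ x 0 * (1 / 2) ^ n := by
      intro n
      induction n with
      | zero => simp
      | succ n ih => rw [pow_succ]; linarith [hx' n]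
    refine squeeze_zero (fun n => (hx n).le) h2 ?_
    simpa using (tendsto_pow_atTop_nhds_zero_of_lt_one (r := (1 / 2 : ℝ)) (by norm_num)
      (by norm_num)).const_mul (x 0)
  have hlx : Tendsto (fun n => t n ^ θ) atTop (𝓝 0) :=
    hgeo _ hx0 fun n => (hx1 n).trans (mul_le_mul_of_nonneg_right hκ1 (hx0 n).le)
  have hlt : Tendsto t atTop (𝓝 0) :=
    hgeo _ ht0 fun n => (ht1 n).trans (mul_le_mul_of_nonneg_right hq1 (ht0 n).le)
  have hcau : CauchySeq fun n => ι (s n) := by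
    refine cauchySeq_of_le_tendsto_0' (fun n => 2 * C * t n ^ θ) (fun n m hnm => ?_)
      (by simpa using hlx.const_mul (2 * C))
    rw [dist_comm, dist_eq_norm]
    exact hd' n m hnm
  obtain ⟨a, ha⟩ := cauchySeq_tendsto_of_complete hcau
  have ha1 : ∀ n, ‖a - ι (s n)‖ ≤ 2 * C * t n ^ θ := fun n =>
    le_of_tendsto ((ha.sub_const _).norm) (eventually_atTop.mpr ⟨n, fun m hm => hd' n m hm⟩)
  refine ⟨a, 4 * C, fun r hr => ?_, fun τ hτ => ?_⟩
  · classical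
    have hex : ∃ n, t n ≤ r := ((hlt.eventually (gt_mem_nhds hr)).exists).imp fun n h => h.le
    have hp : 0 < r ^ θ := Real.rpow_pos_of_pos hr _
    have h2 : t (Nat.find hex) ^ θ ≤ r ^ θ :=
      Real.rpow_le_rpow (ht0 _).le (Nat.find_spec hex) h0.le
    have h3 := Kf_le ι hr.le a (s (Nat.find hex))
    have h4 : r * ‖s (Nat.find hex)‖ ≤ 2 * C * r ^ θ := by
      rcases hk : Nat.find hex with _ | k
      · simp only [s, Finset.range_zero, Finset.sum_empty, norm_zero, mul_zero]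
        positivity
      · have h5 : r < t k := not_le.mp (Nat.find_min hex (by omega))
        refine le_of_mul_le_mul_left ?_ (ht0 k)
        have h6 := mul_le_mul_of_nonneg_left (hs1 k).2 hr.le
        have h7 := mul_le_mul_of_nonneg_left (hconc _ _ hr h5.le) (show 0 ≤ 2 * C by positivity)
        nlinarith
    have h5 := mul_le_mul_of_nonneg_left h2 (show 0 ≤ 2 * C by positivity)
    linarith [ha1 (Nat.find hex)]
  · obtain ⟨n, hn⟩ := (hlt.eventually (gt_mem_nhds hτ)).exists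
    refine ⟨t n, ht0 n, hn, ?_⟩
    have h2 := Kf_split ι (ht0 n).le (ι (u n)) a (-s n)
    have h3 : ι (u n) - a - ι (-s n) = -(a - ι (s (n + 1))) := by rw [hs, map_neg, map_add]; abel
    rw [h3, norm_neg, norm_neg] at h2
    have h4 := mul_le_mul_of_nonneg_left (hx1 n) (show 0 ≤ 2 * C by positivity)
    have h5 := mul_le_mul_of_nonneg_right hκ2 (hx0 n).le
    nlinarith [ha1 (n + 1), (hs1 n).1, hu3 n]

end Pool.Agent.MP_37b4fc_an.Cp
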