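import Pool.Agent.MP_37b4fc_an.Cp.Defs
import Pool.Agent.MP_37b4fc_an.Cp.Curve
import Pool.Agent.MP_37b4fc_an.Cp.Hump

/-! Continuity at a point of the `(θ,∞)` space, for all maps with (H), holds exactly when
`t^(-θ) K(t,a) → 0` as `t → 0`. -/

set_option autoImplicit false
set_option linter.unusedSectionVars false
open Filter Topology
open scoped ENNReal

namespace Pool.Agent.MP_37b4fc_an.Cp

section
variable {E0 E1 F0 F1 : Type*} [NormedAddCommGroup E0] [NormedAddCommGroup E1]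
  [NormedAddCommGroup F0] [NormedAddCommGroup F1]

theorem ofReal_le_Knorm (ι : E1 → E0) {θ : ℝ} (h0 : 0 < θ) (h1 : θ < 1) (a : E0) {c x : ℝ}
    (hx : 0 < x) (h : c * x ^ θ ≤ Kf ι x a) : ENNReal.ofReal (c / 2) ≤ Knorm ι θ ∞ a := by
  refine le_Knorm_top ι θ a hx fun t ht1 ht2 => ?_
  have ht : 0 < t := hx.trans_le ht1
  have hp : 0 < t ^ θ := Real.rpow_pos_of_pos ht _
  have h2 : Kf ι x a ≤ Kf ι t a := Kf_mono ι a hx ht ht1
  have h3 : t ^ θ ≤ 2 * x ^ θ := by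
    calc t ^ θ ≤ (2 * x) ^ θ := Real.rpow_le_rpow ht.le ht2 h0.le
      _ = 2 ^ θ * x ^ θ := Real.mul_rpow (by norm_num) hx.le
      _ ≤ 2 * x ^ θ := by
        refine mul_le_mul_of_nonneg_right ?_ (Real.rpow_pos_of_pos hx _).le
        simpa using Real.rpow_le_rpow_of_exponent_le (show (1 : ℝ) ≤ 2 by norm_num) h1.le
  rw [Real.rpow_neg ht.le, le_inv_mul_iff₀ hp]
  rcases le_total c 0 with hc | hc
  · nlinarith [Kf_nonneg ι ht.le a]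
  · nlinarith

theorem Kf_le_of_Knorm (ι : E1 → E0) {θ : ℝ} (h0 : 0 < θ) (h1 : θ < 1) (a : E0) {N : ℝ}
    (hN : 0 ≤ N) (h : Knorm ι θ ∞ a ≤ ENNReal.ofReal N) {t : ℝ} (ht : 0 < t) :
    Kf ι t a ≤ 2 * N * t ^ θ := by
  have hp : 0 < t ^ θ := Real.rpow_pos_of_pos ht _
  have h2 := (ofReal_le_Knorm ι h0 h1 a (c := Kf ι t a / t ^ θ) ht
    (le_of_eq (div_mul_cancel₀ _ hp.ne'))).trans h
  rw [ENNReal.ofReal_le_ofReal_iff hN, div_le_iff₀ two_pos, div_le_iff₀ hp] at h2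
  linarith

theorem cont_top (ιA : E1 →+ E0) (ιB : F1 →+ F0) (U : E0 → F0) (V : E1 → F1) {M0 M1 L : ℝ}
    (hL : 0 ≤ L) (hι : ∀ y, ‖ιA y‖ ≤ L * ‖y‖)
    (hU : ∀ a b, ‖U a - U b‖ ≤ M0 * ‖a - b‖) (hUV : ∀ x, U (ιA x) = ιB (V x))
    (hV : ∀ x, ‖V x‖ ≤ M1 * ‖x‖) {θ : ℝ} (h0 : 0 < θ) (h1 : θ < 1) (a : E0)
    (ha : ∀ c : ℝ, 0 < c → ∃ τ : ℝ, 0 < τ ∧ ∀ t, 0 < t → t < τ → Kf ιA t a ≤ c * t ^ θ)
    {ε : ℝ≥0∞} (hε : 0 < ε) :
    ∃ δ : ℝ≥0∞, 0 < δ ∧ ∀ b : E0, Knorm ιA θ ∞ (b - a) < δ → Knorm ιB θ ∞ (U b - U a) < ε := by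
  set M : ℝ := max 1 (max M0 M1) with hMdef
  have hM : 0 < M := lt_of_lt_of_le one_pos (le_max_left _ _)
  have hU' : ∀ a b, ‖U a - U b‖ ≤ M * ‖a - b‖ := fun a b => le_trans (hU a b)
    (mul_le_mul_of_nonneg_right (le_trans (le_max_left _ _) (le_max_right _ _)) (norm_nonneg _))
  have hV' : ∀ x, ‖V x‖ ≤ M * ‖x‖ := fun x => le_trans (hV x)
    (mul_le_mul_of_nonneg_right (le_trans (le_max_right _ _) (le_max_right _ _)) (norm_nonneg _))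
  obtain ⟨e, he0, he1, he2⟩ := ENNReal.lt_iff_exists_real_btwn.mp hε
  have he : 0 < e := ENNReal.ofReal_pos.mp he1
  obtain ⟨τ, hτ, hτa⟩ := ha (e / (4 * M)) (by positivity)
  set C : ℝ := M * (1 + L / τ) with hC
  have hC0 : 0 < C := by positivity
  have hMC : M ≤ C := le_mul_of_one_le_right hM.le (by
    have : 0 ≤ L / τ := by positivity
    linarith)
  refine ⟨ENNReal.ofReal (e / (4 * C)), ENNReal.ofReal_pos.mpr (by positivity), fun b hb => ?_⟩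
  refine lt_of_le_of_lt (Knorm_top_le ιB θ _ fun t ht => ?_) he2
  have hp : 0 < t ^ θ := Real.rpow_pos_of_pos ht _
  have h2 := Kf_le_of_Knorm ιA h0 h1 (b - a) (by positivity) hb.le ht
  have h3 := mul_le_mul_of_nonneg_left h2 hC0.le
  have h4 : C * (2 * (e / (4 * C)) * t ^ θ) = e / 2 * t ^ θ := by field_simp; norm_num
  have h5 : 0 < e / 2 * t ^ θ := by positivity
  rcases lt_or_ge t τ with h | h
  · have h6 := Kf_U_near ιA ιB U V hM hU' hUV hV' ht.le a b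
    have h7 := mul_le_mul_of_nonneg_left (hτa t ht h) (show 0 ≤ 2 * M by positivity)
    have h8 : 2 * M * (e / (4 * M) * t ^ θ) = e / 2 * t ^ θ := by field_simp; norm_num
    have h9 := mul_le_mul_of_nonneg_right hMC (Kf_nonneg ιA ht.le (b - a))
    linarith
  · have h6 := Kf_U_far ιA ιB U hM hU' hL hι hτ h a b
    linarith

end

variable {E0 E1 : Type*} [NormedAddCommGroup E0] [NormedSpace ℝ E0]
  [NormedAddCommGroup E1] [NormedSpace ℝ E1]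

theorem small_of_range (ι : E1 →L[ℝ] E0) {θ : ℝ} (h0 : 0 < θ) (h1 : θ < 1) (y : E1) {c : ℝ}
    (hc : 0 < c) : ∃ τ : ℝ, 0 < τ ∧ ∀ t, 0 < t → t < τ → t * ‖y‖ ≤ c * t ^ θ := by
  have h2 : 0 < 1 - θ := by linarith
  have hy : 0 < ‖y‖ + 1 := by positivity
  refine ⟨(c / (‖y‖ + 1)) ^ (1 - θ)⁻¹, Real.rpow_pos_of_pos (by positivity) _, fun t ht htτ => ?_⟩
  have h3 : t ^ (1 - θ) ≤ c / (‖y‖ + 1) := by
    rw [← Real.rpow_inv_rpow (show 0 ≤ c / (‖y‖ + 1) by positivity) h2.ne']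
    exact Real.rpow_le_rpow ht.le htτ.le h2.le
  have h4 : t = t ^ (1 - θ) * t ^ θ := by rw [← Real.rpow_add ht]; simp
  have h5 : 0 < t ^ θ := Real.rpow_pos_of_pos ht _
  have h6 : 0 < t ^ (1 - θ) := Real.rpow_pos_of_pos ht _
  rw [le_div_iff₀ hy] at h3
  calc t * ‖y‖ = t ^ (1 - θ) * ‖y‖ * t ^ θ := by rw [mul_right_comm, ← h4]
    _ ≤ c * t ^ θ := mul_le_mul_of_nonneg_right (by linarith) h5.le

theorem near_of_bound (ι : E1 →L[ℝ] E0) {θ : ℝ} (h0 : 0 < θ) (a : E0) {C : ℝ}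
    (hC : ∀ s, 0 < s → Kf ι s a ≤ C * s ^ θ) (η : ℝ) (hη : 0 < η) : ∃ y, ‖a - ι y‖ ≤ η := by
  have hC1 : 0 < |C| + 1 := by positivity
  obtain ⟨s, hs, hs'⟩ : ∃ s : ℝ, 0 < s ∧ s ^ θ = η / (|C| + 1) :=
    ⟨(η / (|C| + 1)) ^ θ⁻¹, Real.rpow_pos_of_pos (by positivity) _,
      Real.rpow_inv_rpow (by positivity) h0.ne'⟩
  have h2 := hC s hs
  have h3 : C * s ^ θ < η := by
    rw [hs', ← mul_div_assoc, div_lt_iff₀ hC1]
    nlinarith [le_abs_self C]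
  obtain ⟨y, hy⟩ := Kf_approx ι s a (h2.trans_lt h3)
  have : 0 ≤ s * ‖y‖ := by positivity
  exact ⟨y, by linarith⟩

/-- the discontinuous map -/
theorem discont_at (ι : E1 →L[ℝ] E0) {θ : ℝ} (h0 : 0 < θ) (h1 : θ < 1) (a : E0) {C c : ℝ}
    (hc : 0 < c) (hC : ∀ s, 0 < s → Kf ι s a ≤ C * s ^ θ)
    (hbad : ∀ τ : ℝ, 0 < τ → ∃ t, 0 < t ∧ t < τ ∧ c * t ^ θ ≤ Kf ι t a) :
    ∃ (U : E0 → E0) (V : E1 → E1), (∀ x x', ‖U x - U x'‖ ≤ 6 * ‖x - x'‖) ∧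
      (∀ y, U (ι y) = ι (V y)) ∧ (∀ y, ‖V y‖ ≤ 2 * ‖y‖) ∧ LocallyLipschitz V ∧
      ¬ ∃ δ : ℝ≥0∞, 0 < δ ∧ ∀ b : E0, Knorm ι θ ∞ b < ∞ →
        Knorm ι θ ∞ (b - a) < δ → Knorm ι θ ∞ (U b - U a) < ENNReal.ofReal (c / 2 / 2) := by
  have far : ∀ w : E1, ∃ t, 0 < t ∧ c / 2 * t ^ θ ≤ Kf ι t (ι w - a) := by
    intro w
    obtain ⟨τ, hτ, hw⟩ := small_of_range ι h0 h1 w (half_pos hc)
    obtain ⟨t, ht, htτ, hK⟩ := hbad τ hτ
    have h2 := Kf_split ι ht.le a (a - ι w) w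
    rw [sub_sub_cancel, sub_self, norm_zero] at h2
    have h3 := Kf_neg_le ι ht.le (a - ι w)
    rw [neg_sub] at h3
    exact ⟨t, ht, by linarith [hw t ht htτ]⟩
  have hn : ∀ y, ι y ≠ a := by
    intro y hy
    obtain ⟨t, ht, hK⟩ := far y
    have h2 := Kf_le_norm ι ht.le (ι y - a)
    have h3 : 0 < c / 2 * t ^ θ := mul_pos (half_pos hc) (Real.rpow_pos_of_pos ht _)
    rw [hy, sub_self] at h2 hK
    rw [norm_zero] at h2
    linarith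
  obtain ⟨U, V, hU, hUV, hV, hVl, hUa, hUx⟩ := exists_map ι a (near_of_bound ι h0 a hC) hn
  refine ⟨U, V, hU, hUV, hV, hVl, ?_⟩
  rintro ⟨δ, hδ, h⟩
  have ha0 : a ≠ 0 := fun h => hn 0 (by rw [map_zero, h])
  obtain ⟨e, -, he1, he2⟩ := ENNReal.lt_iff_exists_real_btwn.mp hδ
  have he : 0 < e := ENNReal.ofReal_pos.mp he1
  have hC1 : 0 < |C| + 1 := by positivity
  set d := e / (|C| + 1) with hd
  have hd0 : 0 < d := by positivity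
  have hsm : ∀ r : ℝ, 0 < r → Knorm ι θ ∞ (r • a) ≤ ENNReal.ofReal (r * (|C| + 1)) := by
    intro r hr
    refine Knorm_top_le ι θ _ fun t ht => (Kf_smul_le ι ht.le hr a).trans ?_
    have h2 : 0 < t ^ θ := Real.rpow_pos_of_pos ht _
    rw [mul_assoc]
    refine mul_le_mul_of_nonneg_left ((hC t ht).trans ?_) hr.le
    nlinarith [le_abs_self C]
  have hb : (1 + d) • a - a = d • a := by module
  have hba : (1 + d) • a ≠ a := by
    intro h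
    rw [h, sub_self] at hb
    exact smul_ne_zero hd0.ne' ha0 hb.symm
  obtain ⟨w, hw⟩ := hUx _ hba
  have h2 := h ((1 + d) • a) ((hsm _ (by positivity)).trans_lt ENNReal.ofReal_lt_top) (by
    rw [hb]
    refine (hsm d hd0).trans_lt ?_
    rwa [hd, div_mul_cancel₀ _ hC1.ne'])
  rw [hw, hUa] at h2
  obtain ⟨t, ht, hK⟩ := far w
  exact absurd h2 (not_lt.mpr (ofReal_le_Knorm ι h0 h1 _ ht hK))

theorem small_of_closed (ι : E1 →L[ℝ] E0) (hc : IsClosed (Set.range ι)) {θ : ℝ} (h0 : 0 < θ)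
    (h1 : θ < 1) (a : E0) (ha : Knorm ι θ ∞ a < ∞) (c : ℝ) (hc0 : 0 < c) :
    ∃ τ : ℝ, 0 < τ ∧ ∀ t, 0 < t → t < τ → Kf ι t a ≤ c * t ^ θ := by
  have h2 : ∀ s, 0 < s → Kf ι s a ≤ 2 * (Knorm ι θ ∞ a).toReal * s ^ θ := fun s hs =>
    Kf_le_of_Knorm ι h0 h1 a ENNReal.toReal_nonneg (ENNReal.ofReal_toReal ha.ne).ge hs
  have h3 : a ∈ closure (Set.range ι) := by
    refine Metric.mem_closure_iff.mpr fun η hη => ?_
    obtain ⟨y, hy⟩ := near_of_bound ι h0 a h2 (η / 2) (half_pos hη)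
    exact ⟨ι y, ⟨y, rfl⟩, by rw [dist_eq_norm]; linarith⟩
  rw [hc.closure_eq] at h3
  obtain ⟨y, rfl⟩ := h3
  obtain ⟨τ, hτ, hy⟩ := small_of_range ι h0 h1 y hc0
  refine ⟨τ, hτ, fun t ht htτ => le_trans ?_ (hy t ht htτ)⟩
  simpa using Kf_le ι ht.le (ι y) y

theorem closed_of_allContinuous [CompleteSpace E0] [CompleteSpace E1] (ι : E1 →L[ℝ] E0)
    (hι : Function.Injective ι) {θ : ℝ} (h0 : 0 < θ) (h1 : θ < 1)
    (h : AllContinuous ι ι θ LocallyLipschitz) : IsClosed (Set.range ι) := by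
  by_contra hc
  obtain ⟨a, C, hC, hbad⟩ := exists_bad ι hι hc h0 h1
  obtain ⟨U, V, hU, hUV, hV, hVl, hn⟩ := discont_at ι h0 h1 a (by norm_num) hC hbad
  exact hn (h U V 6 2 hU hUV hV hVl a
    ((Knorm_top_le ι θ a hC).trans_lt ENNReal.ofReal_lt_top) _
    (ENNReal.ofReal_pos.mpr (by norm_num)))

end Pool.Agent.MP_37b4fc_an.Cp
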